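import Pool.Agent.W684.SG.Stm

/-!
# Downwards absoluteness for coded analytic sets
-/

set_option autoImplicit false

namespace Pool.Agent.W727.SG

open Pool.Agent.Helper669.Forcing Pool.Agent.W684.SG

theorem down : S_DOWN := by
  classical
  intro P _ y0 e t x q hx ht hq
  obtain ⟨q0, hq0, W, hW⟩ := mem_fex.1 hq q le_rfl
  have hfun : q0 ∈ IsFun W := hW.1
  have step : ∀ (n : ℕ) (r : {r : P // r ≤ q0}), ∃ r' : {r : P // r ≤ q0}, ∃ v : ℕ,
      r'.1 ≤ r.1 ∧ r'.1 ∈ meets (W n v) ∧ (r'.1 ∈ x n ∨ r'.1 ∈ fnot (x n)) := by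
    intro n r
    obtain ⟨r1, hr1, v, hv⟩ := IsFun.total (down_IsFun W _ hfun _ r.2) n
    by_cases h : r1 ∈ fnot (x n)
    · exact ⟨⟨r1, hr1.trans r.2⟩, v, hr1, hv, Or.inr h⟩
    · simp only [fnot, Set.mem_ofPred_eq, not_forall, not_not] at h
      obtain ⟨r2, hr2, h2⟩ := h
      exact ⟨⟨r2, hr2.trans (hr1.trans r.2)⟩, v, hr2.trans hr1, down_meets _ _ hv _ hr2,
        Or.inl h2⟩
  choose f v hf hv hd using step
  let rr : ℕ → {r : P // r ≤ q0} := fun n => Nat.rec ⟨q0, le_rfl⟩ (fun n r => f n r) n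
  have hrr : ∀ n, rr (n + 1) = f n (rr n) := fun n => rfl
  have anti : ∀ n m, n ≤ m → (rr m).1 ≤ (rr n).1 := by
    intro n m h
    induction m, h using Nat.le_induction with
    | base => exact le_rfl
    | succ m _ ih => exact (hf m (rr m)).trans ih
  refine ⟨fun n => v n (rr n), fun a l ha hl => ?_⟩
  obtain ⟨N, hNm, hNe⟩ : ∃ N, l.length ≤ N ∧ ∀ i, i < l.length → e i < N := by
    refine ⟨(Finset.range l.length).sup e + l.length + 1, by omega, fun i hi => ?_⟩
    have := Finset.le_sup (f := e) (Finset.mem_range.2 hi)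
    omega
  have hq0' : (rr N).1 ≤ q0 := (rr N).2
  have hdec : ∀ i, i < N → (rr N).1 ∈ x i ∨ (rr N).1 ∈ fnot (x i) := by
    intro i hi
    have h1 : (rr N).1 ≤ (f i (rr i)).1 := anti (i + 1) N hi
    rcases hd i (rr i) with h | h
    · exact Or.inl (hx i _ h _ h1)
    · exact Or.inr (down_fnot _ _ h _ h1)
  have hval : ∀ i, i < N → (rr N).1 ∈ meets (W i (v i (rr i))) := fun i hi =>
    down_meets _ _ (hv i (rr i)) _ (anti (i + 1) N hi)
  let a' : Finset ℕ := (Finset.range N).filter fun i => (rr N).1 ∈ x i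
  let l' : List ℕ := (List.range N).map fun i => v i (rr i)
  have hl'len : l'.length = N := by simp [l']
  have hl'get : ∀ i, i < N → l'.getD i 0 = v i (rr i) := by
    intro i hi
    simp [l', List.getD_eq_getElem?_getD, hi]
  have hcut : (rr N).1 ∈ CutN a' l'.length x := by
    intro i
    rw [hl'len]
    refine ⟨mem_fimp.2 fun r hr h => ?_, mem_fimp.2 fun r hr h => ?_⟩
    · have h' : i ∈ a' := h
      have h2 := Finset.mem_filter.1 h'
      exact ⟨r, le_rfl, Finset.mem_range.1 h2.1, hx i _ h2.2 _ hr⟩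
    · have h1 : i < N := h.1
      have h2 : r ∈ x i := h.2
      refine ⟨r, le_rfl, ?_⟩
      rcases hdec i h1 with h3 | h3
      · exact Finset.mem_filter.2 ⟨Finset.mem_range.2 h1, h3⟩
      · exact absurd h2 (h3 r hr)
  have hseg : (rr N).1 ∈ fall fun i : ℕ =>
      fimp (fground (i < l'.length)) (meets (W i (l'.getD i 0))) := by
    intro i
    refine mem_fimp.2 fun r hr h => ⟨r, le_rfl, ?_⟩
    have h1 : i < N := by
      have : i < l'.length := h
      omega
    rw [hl'get i h1]
    exact down_meets _ _ (hval i h1) _ hr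
  have hsh : shift e y0 a' l' := by
    obtain ⟨r, hr, h⟩ := mem_fimp.1 (hW.2 a' l') _ hq0' ⟨hcut, hseg⟩
    obtain ⟨r', _, h'⟩ := exists_of_meets (down_fground _) h
    exact h'
  have h1 := hsh l.length (by omega) (fun i hi => by rw [hl'len]; exact hNe i hi)
  have h2 : ((Finset.range l.length).filter fun i => e i ∈ a') = a := by
    ext i
    rw [Finset.mem_filter, Finset.mem_range, ha i]
    refine and_congr_right fun hi => ?_
    have hei : e i < N := hNe i hi
    have h3 : e i ∈ a' ↔ (rr N).1 ∈ x (e i) := by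
      simp only [a', Finset.mem_filter, Finset.mem_range, hei, true_and]
    rw [h3]
    have hle : (rr N).1 ≤ q := hq0'.trans hq0
    constructor
    · intro h
      by_contra h'
      exact (ht i).2 h' _ hle h
    · intro h
      exact hx _ _ ((ht i).1 h) _ hle
  have h3 : l'.take l.length = l := by
    apply List.ext_getElem
    · simp only [List.length_take, hl'len]
      omega
    · intro i h4 h5
      have h6 := hl i h5
      rw [List.getD_eq_getElem _ _ h5] at h6
      rw [List.getElem_take, ← h6]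
      simp [l']
  rw [h2, h3] at h1
  exact h1

end Pool.Agent.W727.SG
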